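import Pool.Agent.Helper45.CF.GoalsC

/-!
# Project CF (MP_d97caa_an), second stage, packet CF2-NQ
-/

open scoped ComplexOrder ZeroAtInfty Topology ComplexConjugate NNReal
open TopologicalSpace Filter

namespace Pool.Agent.Helper40.CF2

open Pool.Agent.Helper34.CAR Pool.Agent.Helper39.CR Pool.Agent.Helper39.Uct
  Pool.Agent.Helper39.CarDefs Pool.Agent.Helper45.CF

noncomputable section

/-- **NQ** -/
theorem t (hN : S_NUBV) : S_NQ := by
  intro Q M A _ _ _ _ _ i hi hsc hfib
  choose L inst j hcar hinj hran using hfib
  -- the values in the fibres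
  have hg : ∀ (x : Q) (a : A), ∃ l : L x, j x l = i a x := by
    intro x a
    have h : i a x ∈ Set.range (j x) := by
      rw [hran x]
      exact ⟨a, rfl⟩
    exact h
  choose g hg using hg
  let π : ∀ x, A →⋆ₐ[ℂ] L x := fun x =>
    { toFun := g x
      map_one' := hinj x (by rw [hg, map_one, map_one]; rfl)
      map_mul' := fun a b => hinj x (by rw [hg, map_mul, map_mul, hg, hg]; rfl)
      map_zero' := hinj x (by rw [hg, map_zero, map_zero]; rfl)
      map_add' := fun a b => hinj x (by rw [hg, map_add, map_add, hg, hg]; rfl)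
      commutes' := fun c => hinj x (by rw [hg, AlgHomClass.commutes, AlgHomClass.commutes]; rfl)
      map_star' := fun a => hinj x (by rw [hg, map_star, map_star, hg]; rfl) }
  have hπ : ∀ x a, j x (π x a) = i a x := fun x a => hg x a
  choose z hz using hsc
  have hext : ∀ a b : A, (∀ x, i a x = i b x) → a = b := fun a b h => hi (ContinuousMap.ext h)
  let ζ : C(Q, ℂ) →⋆ₐ[ℂ] A :=
    { toFun := z
      map_one' := hext _ _ fun x => by rw [hz, map_one]; exact map_one (algebraMap ℂ M)
      map_mul' := fun f f' => hext _ _ fun x => by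
        rw [hz, map_mul, ContinuousMap.mul_apply, ContinuousMap.mul_apply, hz, hz, map_mul]
      map_zero' := hext _ _ fun x => by rw [hz, map_zero]; exact map_zero (algebraMap ℂ M)
      map_add' := fun f f' => hext _ _ fun x => by
        rw [hz, map_add, ContinuousMap.add_apply, ContinuousMap.add_apply, hz, hz, map_add]
      commutes' := fun c => hext _ _ fun x => by
        rw [hz, AlgHomClass.commutes]
        rfl
      map_star' := fun f => hext _ _ fun x => by
        rw [hz, map_star, ContinuousMap.star_apply, ContinuousMap.star_apply, hz]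
        exact (algebraMap_star_comm (f x)) }
  have hζ : ∀ f x, i (ζ f) x = algebraMap ℂ M (f x) := fun f x => hz f x
  refine hN Q A L ζ π ⟨?_, ?_, ?_, ?_⟩ hcar
  · intro x l
    have h : j x l ∈ Set.range fun a => i a x := by
      rw [← hran x]
      exact ⟨l, rfl⟩
    obtain ⟨a, ha⟩ := h
    exact ⟨a, hinj x ((hπ x a).trans ha)⟩
  · intro x f
    apply hinj x
    rw [hπ, hζ, AlgHomClass.commutes]
  · intro a
    have h : (fun x => ‖π x a‖) = fun x => ‖i a x‖ := by
      funext x
      rw [← hπ x a]
      exact ((NonUnitalStarAlgHom.isometry (j x) (hinj x)).norm_map_of_map_zero (map_zero _) _).symm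
    rw [h]
    exact (i a).continuous.norm
  · intro a ha
    apply hext
    intro x
    rw [← hπ x a, ha x, map_zero, map_zero]
    rfl

end

end Pool.Agent.Helper40.CF2
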